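import Mathlib

/-!
# Powers of discrete spaces that are e-separable and not E-separable
-/

set_option autoImplicit false

open Set Topology Filter TopologicalSpace
open Cardinal hiding univ

universe u

namespace Pool.Agent.Results.MP_a67be6_gt.PowersNotESeparable

/-- Closed discrete subsets. -/
def ClosedDiscrete {X : Type*} [TopologicalSpace X] (E : Set X) : Prop :=
  IsClosed E ∧ DiscreteTopology E

/-- `e`-separable spaces: there is a dense countable union of closed discrete sets. -/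
def SmallESeparable (X : Type*) [TopologicalSpace X] : Prop :=
  ∃ E : ℕ → Set X, (∀ n, ClosedDiscrete (E n)) ∧ Dense (⋃ n, E n)

/-- `E`-separable spaces. -/
def BigESeparable (X : Type*) [TopologicalSpace X] : Prop :=
  ∀ D : ℕ → Set X, (∀ n, Dense (D n)) →
    ∃ E : ℕ → Set X, (∀ n, E n ⊆ D n ∧ ClosedDiscrete (E n)) ∧ Dense (⋃ n, E n)

theorem closedDiscrete_of {X : Type*} [TopologicalSpace X] [T1Space X] {E : Set X}
    (h : ∀ z, ∃ U, IsOpen U ∧ z ∈ U ∧ (U ∩ E).Subsingleton) : ClosedDiscrete E := by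
  have key : ∀ E' ⊆ E, IsClosed E' := by
    intro E' hE'
    rw [← isOpen_compl_iff, isOpen_iff_mem_nhds]
    intro z hz
    obtain ⟨U, hU, hzU, hsub⟩ := h z
    have h1 : IsClosed (U ∩ E) := hsub.finite.isClosed
    have h2 : IsClosed (U ∩ E') :=
      ((hsub.anti (inter_subset_inter_right U hE')).finite).isClosed
    refine mem_of_superset ((hU.inter h2.isOpen_compl).mem_nhds ⟨hzU, fun h3 => hz h3.2⟩) ?_
    rintro y ⟨hy1, hy2⟩ hy3
    exact hy2 ⟨hy1, hy3⟩
  refine ⟨key E Subset.rfl, discreteTopology_iff_forall_isOpen.2 fun T => ?_⟩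
  rw [← isClosed_compl_iff]
  have h2 : (Tᶜ : Set E) = (fun z : E => (z : X)) ⁻¹' ((fun z : E => (z : X)) '' Tᶜ) := by
    rw [preimage_image_eq _ Subtype.val_injective]
  rw [h2]
  refine (key _ ?_).preimage continuous_subtype_val
  rintro _ ⟨z, -, rfl⟩
  exact z.2

section Product

variable {I : Type*} {Λ : Type*} [TopologicalSpace Λ] [DiscreteTopology Λ]

theorem exists_cyl {U : Set (I → Λ)} (hU : IsOpen U) {x : I → Λ} (hx : x ∈ U) :
    ∃ J : Finset I, ∀ y : I → Λ, (∀ i ∈ J, y i = x i) → y ∈ U := by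
  obtain ⟨J, u, hu, hJ⟩ := isOpen_pi_iff.1 hU x hx
  refine ⟨J, fun y hy => hJ ?_⟩
  intro i hi
  rw [hy i hi]
  exact (hu i hi).2

theorem isOpen_cyl (J : Finset I) (v : I → Λ) : IsOpen {y : I → Λ | ∀ i ∈ J, y i = v i} := by
  have h1 : {y : I → Λ | ∀ i ∈ J, y i = v i} = ⋂ i ∈ J, (fun y : I → Λ => y i) ⁻¹' {v i} := by
    ext y
    simp
  rw [h1]
  exact isOpen_biInter_finset fun i _ => (isOpen_discrete _).preimage (continuous_apply i)

end Product

section Main

variable (Λ : Type u)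

/-- The underlying set of the dense sets. -/
abbrev Base : Type u := Finset Λ × Finset (Finset Λ × Λ)

variable {Λ}

open Classical in
/-- The independent family of functions. -/
noncomputable def F (c₀ : Λ) (A : Set Λ) (x : Base Λ) : Λ :=
  if h : ∃ v, (x.1.filter (· ∈ A), v) ∈ x.2 then h.choose else c₀

theorem F_indep (c₀ : Λ) (J : Finset (Set Λ)) (v : Set Λ → Λ) :
    ∃ x : Base Λ, ∀ A ∈ J, F c₀ A x = v A := by
  classical
  -- a finite set separating the members of `J`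
  have h1 : ∀ p : Set Λ × Set Λ, ∃ a : Finset Λ, p.1 ≠ p.2 → ∃ t ∈ a, ¬ (t ∈ p.1 ↔ t ∈ p.2) := by
    intro p
    by_cases hp : p.1 = p.2
    · exact ⟨∅, fun h => absurd hp h⟩
    · have : ∃ t, ¬ (t ∈ p.1 ↔ t ∈ p.2) := by
        by_contra hcon
        push Not at hcon
        exact hp (Set.ext hcon)
      obtain ⟨t, ht⟩ := this
      exact ⟨{t}, fun _ => ⟨t, Finset.mem_singleton_self t, ht⟩⟩
  choose a ha using h1
  let b : Finset Λ := (J ×ˢ J).biUnion a
  have hb : ∀ A ∈ J, ∀ B ∈ J, b.filter (· ∈ A) = b.filter (· ∈ B) → A = B := by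
    intro A hA B hB hAB
    by_contra hne
    obtain ⟨t, ht, htn⟩ := ha (A, B) hne
    have htb : t ∈ b := Finset.mem_biUnion.2 ⟨(A, B), Finset.mem_product.2 ⟨hA, hB⟩, ht⟩
    refine htn ⟨fun h => ?_, fun h => ?_⟩
    · have : t ∈ b.filter (· ∈ A) := Finset.mem_filter.2 ⟨htb, h⟩
      rw [hAB] at this
      exact (Finset.mem_filter.1 this).2
    · have : t ∈ b.filter (· ∈ B) := Finset.mem_filter.2 ⟨htb, h⟩
      rw [← hAB] at this
      exact (Finset.mem_filter.1 this).2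
  refine ⟨(b, J.image fun A => (b.filter (· ∈ A), v A)), fun A hA => ?_⟩
  have hex : ∃ w, (b.filter (· ∈ A), w) ∈ J.image fun A => (b.filter (· ∈ A), v A) :=
    ⟨v A, Finset.mem_image.2 ⟨A, hA, rfl⟩⟩
  have hF : F c₀ A (b, J.image fun A => (b.filter (· ∈ A), v A)) = hex.choose := by
    unfold F
    convert dif_pos hex
  rw [hF]
  obtain ⟨B, hB, hBA⟩ := Finset.mem_image.1 hex.choose_spec
  have h2 : b.filter (· ∈ B) = b.filter (· ∈ A) := congrArg Prod.fst hBA
  have h3 : v B = hex.choose := congrArg Prod.snd hBA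
  rw [← h3, hb B hB A hA h2]

/-- Nowhere dense subsets of the base with respect to the independent family. -/
def NWD (c₀ : Λ) (N : Set (Base Λ)) : Prop :=
  ∀ (J : Finset (Set Λ)) (v : Set Λ → Λ), ∃ (J' : Finset (Set Λ)) (v' : Set Λ → Λ), J ⊆ J' ∧
    (∀ A ∈ J, v' A = v A) ∧ ∀ x ∈ N, ¬ ∀ A ∈ J', F c₀ A x = v' A

theorem NWD.union {c₀ : Λ} {M N : Set (Base Λ)} (hM : NWD c₀ M) (hN : NWD c₀ N) :
    NWD c₀ (M ∪ N) := by
  intro J v
  obtain ⟨J1, v1, h1, h2, h3⟩ := hM J v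
  obtain ⟨J2, v2, h4, h5, h6⟩ := hN J1 v1
  refine ⟨J2, v2, h1.trans h4, fun A hA => (h5 A (h1 hA)).trans (h2 A hA), ?_⟩
  rintro x (hx | hx) hall
  · exact h3 x hx fun A hA => (hall A (h4 hA)).trans (h5 A hA)
  · exact h6 x hx hall

theorem NWD.empty {c₀ : Λ} : NWD c₀ (∅ : Set (Base Λ)) := fun J v =>
  ⟨J, v, Subset.rfl, fun _ _ => rfl, fun x hx => absurd hx (notMem_empty x)⟩

theorem NWD.biUnion {c₀ : Λ} (J : Finset (Set Λ)) (M : Set Λ → Set (Base Λ))
    (hM : ∀ A ∈ J, NWD c₀ (M A)) : NWD c₀ (⋃ A ∈ J, M A) := by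
  classical
  induction J using Finset.induction_on with
  | empty => simpa using NWD.empty
  | insert A J _ ih =>
    rw [Finset.set_biUnion_insert]
    exact (hM A (Finset.mem_insert_self A J)).union
      (ih fun B hB => hM B (Finset.mem_insert_of_mem hB))

open Classical in
/-- The modified coordinate functions. -/
noncomputable def pp (c₀ c₁ : Λ) (e : Set Λ → ℕ → Set (Base Λ)) (n : ℕ) (x : Base Λ) :
    Set Λ → Λ := fun A =>
  if NWD c₀ (e A n) ∧ x ∈ e A n ∧ F c₀ A x = c₀ then c₁ else F c₀ A x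

theorem exists_code [Infinite Λ] : ∃ g : Base Λ × ℕ → Λ, Function.Injective g := by
  have h1 : #(Base Λ × ℕ) ≤ #Λ := by
    have hinf : ℵ₀ ≤ #Λ := Cardinal.aleph0_le_mk Λ
    have h2 : #(Finset Λ) = #Λ := Cardinal.mk_finset_of_infinite Λ
    have h3 : #(Finset Λ × Λ) = #Λ := by
      rw [Cardinal.mk_prod, Cardinal.lift_id, Cardinal.lift_id, h2, Cardinal.mul_eq_self hinf]
    have h4 : #(Finset (Finset Λ × Λ)) = #Λ := by
      rw [Cardinal.mk_finset_of_infinite, h3]
    rw [Cardinal.mk_prod, Cardinal.lift_uzero, Cardinal.mk_prod, Cardinal.lift_id,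
      Cardinal.lift_id, h2, h4, Cardinal.mul_eq_self hinf]
    simp only [Cardinal.mk_nat, Cardinal.lift_aleph0]
    rw [Cardinal.mul_aleph0_eq hinf]
  obtain ⟨g⟩ := h1
  exact ⟨g, g.injective⟩

theorem no_isolated [Infinite Λ] [TopologicalSpace Λ] [DiscreteTopology Λ]
    {E : Set (Set Λ → Λ)} (hE : ClosedDiscrete E) (J : Finset (Set Λ)) (v : Set Λ → Λ)
    (hJ : {y : Set Λ → Λ | ∀ i ∈ J, y i = v i} ⊆ E) : False := by
  classical
  have hv : v ∈ E := hJ fun _ _ => rfl
  obtain ⟨hcl, hd⟩ := hE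
  have h1 : IsOpen ({⟨v, hv⟩} : Set E) := isOpen_discrete _
  obtain ⟨O, hO, hOE⟩ := isOpen_induced_iff.1 h1
  have hvO : v ∈ O := by
    have : (⟨v, hv⟩ : E) ∈ (Subtype.val ⁻¹' O : Set E) := by
      rw [hOE]
      rfl
    exact this
  obtain ⟨J2, hJ2⟩ := exists_cyl hO hvO
  obtain ⟨i, hi⟩ := Infinite.exists_notMem_finset (J ∪ J2)
  rw [Finset.notMem_union] at hi
  obtain ⟨c, hc⟩ := exists_ne (v i)
  let w : Set Λ → Λ := Function.update v i c
  have hw : ∀ k, k ≠ i → w k = v k := fun k hk => Function.update_of_ne hk c v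
  have hwE : w ∈ E := hJ fun k hk => hw k fun h => hi.1 (h ▸ hk)
  have hwO : w ∈ O := hJ2 w fun k hk => hw k fun h => hi.2 (h ▸ hk)
  have h2 : (⟨w, hwE⟩ : E) ∈ (Subtype.val ⁻¹' O : Set E) := hwO
  rw [hOE] at h2
  have h3 : w = v := congrArg Subtype.val h2
  have h4 := congrFun h3 i
  change Function.update v i c i = v i at h4
  rw [Function.update_self] at h4
  exact hc h4

/-- For every infinite discrete space `Λ` of cardinality `λ`, the power `Λ^{2^λ}` is
`e`-separable and not `E`-separable. -/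
theorem result (Λ : Type u) [Infinite Λ] [TopologicalSpace Λ] [DiscreteTopology Λ] :
    SmallESeparable (Set Λ → Λ) ∧ ¬ BigESeparable (Set Λ → Λ) := by
  classical
  obtain ⟨c₀⟩ := (inferInstance : Nonempty Λ)
  obtain ⟨c₁, hc⟩ := exists_ne c₀
  obtain ⟨g, hg⟩ := exists_code (Λ := Λ)
  constructor
  · -- e-separability
    let ι : ℕ → Set Λ := Infinite.natEmbedding (Set Λ)
    have hι : Function.Injective ι := (Infinite.natEmbedding (Set Λ)).injective
    let q : ℕ → Base Λ → Set Λ → Λ := fun n x A => if ∃ m ≥ n, A = ι m then g (x, 0) else F c₀ A x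
    refine ⟨fun n => range (q n), fun n => ?_, ?_⟩
    · refine closedDiscrete_of fun z => ⟨{y | ∀ i ∈ ({ι n} : Finset (Set Λ)), y i = z i},
        isOpen_cyl _ _, fun _ _ => rfl, ?_⟩
      rintro _ ⟨hy1, ⟨x, rfl⟩⟩ _ ⟨hy2, ⟨x', rfl⟩⟩
      have h1 := hy1 (ι n) (Finset.mem_singleton_self _)
      have h2 := hy2 (ι n) (Finset.mem_singleton_self _)
      have h3 : ∀ x, q n x (ι n) = g (x, 0) := fun x => if_pos ⟨n, le_rfl, rfl⟩
      rw [h3] at h1 h2
      have h4 : (x, 0) = (x', 0) := hg (h1.trans h2.symm)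
      rw [(Prod.mk.inj h4).1]
    · rw [dense_iff_inter_open]
      rintro U hU ⟨z, hz⟩
      obtain ⟨J, hJ⟩ := exists_cyl hU hz
      have hfin : {m | ι m ∈ J}.Finite := J.finite_toSet.preimage hι.injOn
      obtain ⟨N, hN⟩ := hfin.bddAbove
      obtain ⟨x, hx⟩ := F_indep c₀ J z
      refine ⟨q (N + 1) x, hJ _ fun A hA => ?_, mem_iUnion.2 ⟨N + 1, x, rfl⟩⟩
      have h1 : ¬ ∃ m ≥ N + 1, A = ι m := by
        rintro ⟨m, hm, rfl⟩
        have := hN (show m ∈ {m | ι m ∈ J} from hA)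
        omega
      change (if ∃ m ≥ N + 1, A = ι m then g (x, 0) else F c₀ A x) = z A
      rw [if_neg h1, hx A hA]
  · intro hbig
    let e : Set Λ → ℕ → Set (Base Λ) := fun S n => {x | g (x, n) ∈ S}
    have he : ∀ N : ℕ → Set (Base Λ), ∃ S, e S = N := by
      intro N
      refine ⟨{t | ∃ n, ∃ x ∈ N n, g (x, n) = t}, funext fun n => Set.ext fun x => ?_⟩
      constructor
      · rintro ⟨m, y, hy, hym⟩
        have h1 := hg hym
        obtain ⟨rfl, rfl⟩ := Prod.mk.inj h1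
        exact hy
      · intro hx
        exact ⟨n, x, hx, rfl⟩
    -- the key computation
    have hkey : ∀ (n : ℕ) (J : Finset (Set Λ)) (z : Set Λ → Λ) (N : Set (Base Λ)),
        (∀ (J' : Finset (Set Λ)) (v' : Set Λ → Λ), J ⊆ J' → (∀ A ∈ J, v' A = z A) →
          ∃ x ∈ N, ∀ A ∈ J', F c₀ A x = v' A) → ∃ x ∈ N, ∀ A ∈ J, pp c₀ c₁ e n x A = z A := by
      intro n J z N hN
      let M : Set Λ → Set (Base Λ) := fun A => if NWD c₀ (e A n) then e A n else ∅
      have hM : NWD c₀ (⋃ A ∈ J, M A) := by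
        refine NWD.biUnion J M fun A _ => ?_
        by_cases h : NWD c₀ (e A n)
        · simpa [M, h] using h
        · simpa [M, h] using NWD.empty
      obtain ⟨J', v', h1, h2, h3⟩ := hM J z
      obtain ⟨x, hx, hxJ⟩ := hN J' v' h1 h2
      refine ⟨x, hx, fun A hA => ?_⟩
      have h4 : x ∉ M A := fun h => h3 x (mem_biUnion hA h) hxJ
      have h5 : ¬ (NWD c₀ (e A n) ∧ x ∈ e A n ∧ F c₀ A x = c₀) := by
        rintro ⟨h6, h7, -⟩
        refine h4 ?_
        simpa [M, h6] using h7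
      unfold pp
      rw [if_neg h5, hxJ A (h1 hA), h2 A hA]
    obtain ⟨E, hE, hdense⟩ := hbig (fun n => range (pp c₀ c₁ e n)) fun n => by
      rw [dense_iff_inter_open]
      rintro U hU ⟨z, hz⟩
      obtain ⟨J, hJ⟩ := exists_cyl hU hz
      obtain ⟨x, -, hx⟩ := hkey n J z univ fun J' v' _ _ => by
        obtain ⟨x, hx⟩ := F_indep c₀ J' v'
        exact ⟨x, trivial, hx⟩
      exact ⟨_, hJ _ hx, x, rfl⟩
    let N : ℕ → Set (Base Λ) := fun n => {x | pp c₀ c₁ e n x ∈ E n}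
    have hNWD : ∀ n, NWD c₀ (N n) := by
      intro n
      by_contra hcon
      unfold NWD at hcon
      push Not at hcon
      obtain ⟨J, v, hJv⟩ := hcon
      refine no_isolated (hE n).2 J v fun z hz => ?_
      rw [← (hE n).2.1.closure_eq, mem_closure_iff]
      intro U hU hzU
      obtain ⟨J1, hJ1⟩ := exists_cyl hU hzU
      obtain ⟨x, hx, hxJ⟩ := hkey n (J ∪ J1) z (N n) fun J' v' h1 h2 =>
        hJv J' v' (Finset.union_subset_left h1) fun A hA =>
          (h2 A (Finset.mem_union_left _ hA)).trans (hz A hA)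
      exact ⟨_, hJ1 _ fun A hA => hxJ A (Finset.mem_union_right _ hA), hx⟩
    obtain ⟨A, hA⟩ := he N
    obtain ⟨y, hy, hyE⟩ := hdense.inter_open_nonempty
      {y : Set Λ → Λ | ∀ i ∈ ({A} : Finset (Set Λ)), y i = (fun _ => c₀ : Set Λ → Λ) i}
      (isOpen_cyl _ _) ⟨fun _ => c₀, fun _ _ => rfl⟩
    obtain ⟨n, hn⟩ := mem_iUnion.1 hyE
    obtain ⟨x, rfl⟩ := (hE n).1 hn
    have h1 : pp c₀ c₁ e n x A = c₀ := hy A (Finset.mem_singleton_self A)
    have h2 : e A n = N n := congrFun hA n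
    have h3 : NWD c₀ (e A n) := by
      rw [h2]
      exact hNWD n
    have h4 : x ∈ e A n := by
      rw [h2]
      exact hn
    unfold pp at h1
    by_cases h5 : F c₀ A x = c₀
    · rw [if_pos ⟨h3, h4, h5⟩] at h1
      exact hc h1
    · rw [if_neg fun h => h5 h.2.2] at h1
      exact h5 h1

end Main

end Pool.Agent.Results.MP_a67be6_gt.PowersNotESeparable
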